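import Mathlib
import Pool.Agent.H690R2.PC.Main

/-!
# A parameterized PCTL formula that forces large finite models

The definitions (Markov chains, the measure on runs, PCTL formulas and their semantics,
parameterized formulas) are in `Pool/Agent/H690R2/PC/Defs.lean`.

Sketch of the proof. The states of the chain part of a model carry two numbers `x`, `y`, read off
from the probabilities of two exits; at a state of class 0 or 1 the formula makes `x` the sum, and
`y` one half of the sum, of the values of the successors in the chain part weighted by their
probabilities, whose total is `1/2`. So `z = y - x^2/2` satisfies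
`z(t) = (1/2) E[z] + (1/4) E[(x - 2 x(t))^2]`, and `z = 0` at the end states (class 2), where
`x = 1/4`. Hence `z ≥ -2 * 4^{-k}` for every `k`, so `z ≥ 0`, and if `z(t) = 0` then every chain
successor has `z = 0` and `x = 2 x(t)`. The root forces the first chain states to have `x = 2 κ` and
`z = 0`. With `2 κ = 2^{-m} / 4` the values `2^{-m} / 4, 2^{-m+1} / 4, …, 1 / 4` of `x` all occur in
every model. The alternation of the classes 0 and 1, which use the encodings `p` and `c - p` of a
number by a probability `p`, makes the two linear conditions expressible by formulas `Φ U^{≤ 2} Ψ`.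
-/

namespace Pool.Agent.Results.MP_f57a76_lc.LargeModels

open Pool.Agent.H690R2.PC

/-- There is a parameterized PCTL formula `φ` such that for every `n` there is `κ ∈ (0, 1)` for which
`φ(κ)` has a finite model, while every model of `φ(κ)` (finite or infinite) has at least `n`
states. -/
theorem result : ∃ φ : PPCTL, ∀ n : ℕ, ∃ κ : Set.Icc (0 : ℝ) 1, 0 < (κ : ℝ) ∧ (κ : ℝ) < 1 ∧
    (∃ M : MC, Finite M.S ∧ M.Models (φ.inst κ)) ∧
    ∀ M : MC, M.Models (φ.inst κ) → (n : Cardinal) ≤ Cardinal.mk M.S :=
  ⟨thePhi, main⟩

end Pool.Agent.Results.MP_f57a76_lc.LargeModels
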